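import Pool.Agent.ZES.StmtsZ

/-!
# Squad ZES, row SZS: assembly
-/

namespace Pool.Agent.ZES.H19

open scoped BigOperators InnerProductSpace
open Pool.Agent.THS

/-- vanishing at all integer multiples -/
theorem van_int {g : ℕ} {τ : Matrix (Fin g) (Fin g) ℂ} {z : Fin g → ℂ} {n : ℕ}
    {F : (Fin g → ℂ) → ℂ} (hF : F ∈ RR τ n) (hz : ∃ N : ℕ, 0 < N ∧ InLat τ (fun i => (N : ℂ) * z i))
    (h0 : ∀ k : ℕ, F (fun i => (k : ℂ) * z i) = 0) (j : ℤ) : F (j • z) = 0 := by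
  obtain ⟨N, hN, p, q, hpq⟩ := hz
  have hk : 0 ≤ j + (N : ℤ) * (j.natAbs : ℤ) := by
    have h1 : -j ≤ (j.natAbs : ℤ) := by omega
    have h2 : (j.natAbs : ℤ) ≤ (N : ℤ) * (j.natAbs : ℤ) := by
      have h3 : (1 : ℤ) ≤ (N : ℤ) := by exact_mod_cast hN
      have h4 : (0 : ℤ) ≤ (j.natAbs : ℤ) := by positivity
      nlinarith
    linarith
  obtain ⟨k, hk⟩ := Int.eq_ofNat_of_zero_le hk
  have h1 := hF.2 (j • z) (fun i => (j.natAbs : ℤ) * p i) (fun i => (j.natAbs : ℤ) * q i)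
  have h2 : j • z + pr τ (fun i => (j.natAbs : ℤ) * p i) (fun i => (j.natAbs : ℤ) * q i)
      = fun i => (k : ℂ) * z i := by
    funext i
    have e1 : (k : ℂ) = (j : ℂ) + (N : ℂ) * ((j.natAbs : ℤ) : ℂ) := by
      have := congrArg (fun t : ℤ => (t : ℂ)) hk
      push_cast at this
      rw [← this]
      push_cast
      ring
    have e2 : (N : ℂ) * z i = (p i : ℂ) + ∑ r, τ i r * (q r : ℂ) := hpq i
    show j • z i + (((((j.natAbs : ℤ) * p i : ℤ)) : ℂ)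
      + ∑ r, τ i r * ((((j.natAbs : ℤ) * q r : ℤ)) : ℂ)) = (k : ℂ) * z i
    have e3 : ∑ r, τ i r * ((((j.natAbs : ℤ) * q r : ℤ)) : ℂ)
        = ((j.natAbs : ℤ) : ℂ) * ∑ r, τ i r * (q r : ℂ) := by
      rw [Finset.mul_sum]
      refine Finset.sum_congr rfl fun r _ => ?_
      push_cast
      ring
    rw [e3, e1, zsmul_eq_mul, Int.cast_mul, add_mul, mul_assoc, mul_comm (((j.natAbs : ℤ)) : ℂ) (z i),
      ← mul_assoc, e2]
    ring
  rw [h2, h0 k] at h1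
  exact (mul_eq_zero.1 h1.symm).resolve_left (Complex.exp_ne_zero _)

theorem szs (hG : SZG.SzgStatement) (hZ : ZetStmt) : SzsStmt := by
  intro g σ
  obtain ⟨n, hn⟩ := hG g σ
  obtain ⟨l, hl1, hl2⟩ := Nat.exists_infinite_primes (n + 3)
  have hodd : Odd l := hl2.odd_of_ne_two (by omega)
  refine ⟨l, hl2, hodd, fun d => ?_⟩
  obtain ⟨B1, hB1⟩ := hn l hl2 hodd d
  have hl0 : 1 ≤ l ^ 2 := Nat.one_le_pow _ _ (by omega)
  obtain ⟨B2, hB2⟩ := hZ g (4 * l ^ 2) ⟨2 * l ^ 2, by ring⟩ (by omega)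
  refine ⟨max (max B1 B2) 1, ?_⟩
  intro K _ _ hd φ τ hτ z hz x hx hμ S ev hS hH
  rcases Nat.eq_zero_or_pos g with hg | hg
  · subst hg
    left
    exact ⟨1, le_refl _, le_max_right _ _, fun _ => 0, fun _ => 0, fun i => i.elim0⟩
  rcases hB1 K hd φ τ hτ z hz x hx hμ S ev hS hH with ⟨M, h1, h2, h3⟩ | ⟨F, hF1, hF2⟩
  · left
    exact ⟨M, h1, h2.trans ((le_max_left _ _).trans (le_max_left _ _)), h3⟩
  have hpos : 0 < 2 ^ g * l ^ (2 * g) - n * l ^ (2 * g - 1) := by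
    have e1 : l ^ (2 * g) = l * l ^ (2 * g - 1) := by
      rw [← pow_succ']
      congr 1
      omega
    have e2 : 0 < l ^ (2 * g - 1) := pow_pos (by omega) _
    have e3 : 1 ≤ 2 ^ g := Nat.one_le_two_pow
    have e4 : n * l ^ (2 * g - 1) < 2 ^ g * l ^ (2 * g) := by
      rw [e1]
      calc n * l ^ (2 * g - 1) < l * l ^ (2 * g - 1) :=
            Nat.mul_lt_mul_of_pos_right (by omega) e2
        _ = 1 * (l * l ^ (2 * g - 1)) := (one_mul _).symm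
        _ ≤ 2 ^ g * (l * l ^ (2 * g - 1)) := Nat.mul_le_mul_right _ e3
    omega
  obtain ⟨hdiff, hper, hvan⟩ := hF2 ⟨0, hpos⟩
  have hne := hF1.ne_zero ⟨0, hpos⟩
  generalize F ⟨0, hpos⟩ = F0 at hdiff hper hvan hne
  have hRR : F0 ∈ RR τ (2 * (4 * l ^ 2)) := by
    refine ⟨hdiff, fun w p q => ?_⟩
    have h1 := hper w p q
    have e1 : F0 (w + pr τ p q) = F0 (fun i => w i + ((p i : ℂ) + ∑ j, τ i j * (q j : ℂ))) := rfl
    rw [e1, h1]
    congr 2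
    push_cast
    ring
  obtain ⟨y, hy⟩ := Function.ne_iff.1 hne
  obtain ⟨W, hW1, hW2, ⟨M, hM1, hM2, u, hu, hlat⟩, k, hk1, hk2, hk3⟩ :=
    hB2 τ hτ z F0 hRR (van_int hRR hz hvan) ⟨y, hy⟩
  have hB : B2 ≤ max (max B1 B2) 1 := (le_max_right _ _).trans (le_max_left _ _)
  by_cases hW : W = ⊥
  · left
    refine ⟨M, hM1, hM2.trans hB, ?_⟩
    subst hW
    have h0 : u = 0 := (Submodule.mem_bot ℂ).1 hu
    subst h0
    have e1 : (fun i => (M : ℂ) * z i) = M • z - 0 := by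
      funext i
      simp
    rw [e1]
    exact hlat
  · right
    exact ⟨W, hW, hW1, hW2, ⟨M, hM1, hM2.trans hB, u, hu, hlat⟩, k, hk1, hk2.trans hB, hk3⟩

end Pool.Agent.ZES.H19
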